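import Pool.Agent.R775.HC.C5

/-!
# The Hilbert-Smith conjecture for Sobolev homeomorphisms with countable exceptional sets

Let `n ≥ 2` and let `X` be a metric space in which the points with a neighbourhood bi-Lipschitz
equivalent to an open subset of `ℝⁿ` form a dense connected set (for example an Alexandrov space
of dimension `n`). Let a locally compact group `G` act faithfully and continuously on `X`. Suppose
that every element whose powers have compact closure in a given neighbourhood of `1` is of class
`W^{1,q}`, `q > n - 1`, near every regular point outside a countable set; the countable set, the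
neighbourhoods, the exponents and the norms depend on the element (and on the point) in an arbitrary
way. Then `G` is a Lie group. Instead of the Sobolev class, near some of the points the images of
small balls may be small in the sense of the theorem `SobolevExponentAboveNMinusOne` of the
starting library, which is the case of empty exceptional sets.

Proof (files in `Pool/Agent/R775/HC/` and `Pool/Agent/R775/HS/`). Let `S` be a compact totally
disconnected group of such maps, `Z` the set of the points near which an open subgroup acts
trivially, and `B` the set of the other regular points. If `B` is uncountable in a ball, then every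
`s` in `S` is regular near some point of `B`, and by Baire's theorem a coset of an open subgroup has
uniformly bounded energies on a ball around a point of `B`. In the topological chart given by the
representative of the coset the average of the subgroup has almost all fibres totally disconnected, so
that an open subgroup acts trivially near this point, a contradiction. If `B` is countable in a
ball, its complement `O` in the ball is connected and dense. Near the points of `O` the group acts
through finite quotients, its averages have almost all fibres totally disconnected since a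
countable set has countable image, and Newman's theorem holds there. So an open subgroup acts
trivially on `O`, and on the ball.
-/

set_option autoImplicit false

namespace Pool.Agent.Results.MP_afaf30_gt.CountableExceptions

open MeasureTheory Set Metric Filter Topology
open scoped ENNReal

/-- The points in the domain of a bi-Lipschitz chart with values in Euclidean `n`-space. -/
def Reg (n : ℕ) (X : Type) [MetricSpace X] : Set X :=
  {x | ∃ φ : OpenPartialHomeomorph X (EuclideanSpace ℝ (Fin n)),
    (∃ L : ℝ, ∀ a ∈ φ.source, ∀ b ∈ φ.source,
      dist (φ a) (φ b) ≤ L * dist a b ∧ dist a b ≤ L * dist (φ a) (φ b)) ∧ x ∈ φ.source}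

/-- Near `x` the map `f` is of class `W^{1,q}` for some `q > n - 1`, in the form of Hajlasz: in a
neighbourhood `d(fa, fb) ≤ d(a, b) (h(a) + h(b))`, and `h^q` has finite integral for the
`n`-dimensional Hausdorff measure. -/
def SobolevNear (n : ℕ) {X : Type} [MetricSpace X] [MeasurableSpace X] [BorelSpace X]
    (f : X → X) (x : X) : Prop :=
  ∃ W ∈ 𝓝 x, ∃ q : ℝ, (n : ℝ) - 1 < q ∧ ∃ h : X → ℝ≥0∞, Measurable h ∧
    (∀ a ∈ W, ∀ b ∈ W, edist (f a) (f b) ≤ edist a b * (h a + h b)) ∧
    ∫⁻ a in W, h a ^ q ∂(Measure.hausdorffMeasure (n : ℝ)) < ∞

/-- For a compact neighbourhood `W` of `x` the sum of `diam (f (B(a, c r) ∩ W))^n` over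
`r`-separated points `a` of `W` is at most `N r^{-1 + 1/N}`, for some `N` depending on `c`. -/
def SmallImagesNear (n : ℕ) {X : Type} [MetricSpace X] (f : X → X) (x : X) : Prop :=
  ∃ W ∈ 𝓝 x, IsCompact W ∧ ∀ c : ℕ, ∃ N : ℕ, ∀ r : ℝ, 0 < r → r ≤ 1 → ∀ A : Finset X,
    (∀ a ∈ A, a ∈ W) → (∀ a ∈ A, ∀ b ∈ A, a ≠ b → r ≤ dist a b) →
    ∑ a ∈ A, Metric.diam (f '' (closedBall a (c * r) ∩ W)) ^ n ≤ N * r ^ (1 / (N : ℝ) - 1)

/-- The powers of `g` have compact closure contained in `V`. -/
def SmallPowers {G : Type} [Group G] [TopologicalSpace G] (V : Set G) (g : G) : Prop :=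
  IsCompact (closure (Subgroup.zpowers g : Set G)) ∧ closure (Subgroup.zpowers g : Set G) ⊆ V

/-- The Hilbert-Smith conjecture for homeomorphisms of class `W^{1,q}`, `q > n - 1`, off countable
sets. -/
theorem result :
    ∀ (n : ℕ), 2 ≤ n → ∀ (X : Type) [MetricSpace X] [MeasurableSpace X] [BorelSpace X],
      Dense (Reg n X) → IsPreconnected (Reg n X) →
      ∀ (G : Type) [Group G] [TopologicalSpace G] [IsTopologicalGroup G] [LocallyCompactSpace G]
        [MulAction G X] [ContinuousSMul G X] [FaithfulSMul G X], ∀ V ∈ 𝓝 (1 : G),
        (∀ g : G, SmallPowers V g → ∃ N : Set X, N.Countable ∧ ∀ x ∈ Reg n X, x ∉ N →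
          SobolevNear n (fun x : X => g • x) x ∨ SmallImagesNear n (fun x : X => g • x) x) →
        ∃ (m : ℕ) (_ : ChartedSpace (EuclideanSpace ℝ (Fin m)) G),
          LieGroup (modelWithCornersSelf ℝ (EuclideanSpace ℝ (Fin m)))
            ((⊤ : ℕ∞) : WithTop ℕ∞) G := by
  intro n hn X _ _ _ hd hc G _ _ _ _ _ _ _ V hV hreg
  exact Pool.Agent.R775.HC.lie_countable hn hd hc hV hreg

end Pool.Agent.Results.MP_afaf30_gt.CountableExceptions
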