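import Pool.Agent.R775.HS.Lie

/-!
# Invariant maps and invariant continua: a criterion for the Hilbert-Smith conjecture

Part (1). Let a topological group `H` act locally, with displacement at most `1/4`, on the ball
`B(0, 4)` of `ℝⁿ`, and let `g` be an element with `g ^ (p ^ j) → 1`, `p` a prime (a `p`-adic
transformation). Let `F` be a continuous map of the ball into `ℝⁿ` with `|F(x) - x| ≤ 1/4` which is
invariant under `g`. Then for every `y` with `|y| < 1` the fibre of `F` over `y` contains a
`g`-invariant continuum. No regularity is assumed.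

Part (2). Let `X` be a Hausdorff space and `𝒜` a family of topological charts with values in `ℝⁿ`
which is closed under compositions with bi-Lipschitz maps, such that the domains of the charts
cover a dense connected set (for example all charts, if `X` is an Alexandrov space of dimension
`n`). Let a locally compact group `G` act faithfully and continuously on `X`. Then `G` is a Lie
group, if there is a neighbourhood `V` of `1` such that for all `g` whose powers have compact
closure in `V`, with `g ^ (p ^ j) → 1` for a prime `p`, and for all charts in `𝒜` in which the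
closure of the powers has displacement at most `1/4`, there is some invariant map `F` as in (1),
equal to the identity at the fixed points of `g`, such that for a dense set of `y` every
`g`-invariant continuum in the fibre over `y` contains a fixed point of `g`. The map `F` need not
be an average and may depend on `g` and on the chart. (If `G` is a Lie group then only `g = 1` has
small powers, and `F = id` is such a map.)

Proof (files in `Pool/Agent/R775/HS/`). If no component of a compact fibre is invariant under `g`,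
finitely many pairs of separated clopen sets give a coding of the fibre, and hence a partition
into `p` compact sets which `g` permutes cyclically. This is impossible for the degree
(starting library, `Pool/Agent/Y983/SP/DEGP.lean`).
-/

set_option autoImplicit false

namespace Pool.Agent.Results.MP_afaf30_gt.InvariantContinua

open Set Metric Filter Topology

/-- A local action on the closed ball of radius four with displacement at most `1 / 4`. -/
def LocalAction (n : ℕ) (H : Type) [Group H] [TopologicalSpace H]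
    (T : H → EuclideanSpace ℝ (Fin n) → EuclideanSpace ℝ (Fin n)) : Prop :=
  ContinuousOn (fun q : H × EuclideanSpace ℝ (Fin n) => T q.1 q.2) (univ ×ˢ closedBall 0 4) ∧
  (∀ x ∈ closedBall 0 4, T 1 x = x) ∧
  (∀ h k, ∀ x ∈ closedBall 0 4, T k x ∈ closedBall 0 4 → T (h * k) x = T h (T k x)) ∧
  ∀ h, ∀ x ∈ closedBall 0 4, dist (T h x) x ≤ 1 / 4

/-- `F` is close to the identity and invariant under `τ`. -/
def Invariant {n : ℕ} (τ F : EuclideanSpace ℝ (Fin n) → EuclideanSpace ℝ (Fin n)) : Prop :=
  ContinuousOn F (closedBall 0 4) ∧ (∀ v ∈ closedBall 0 4, dist (F v) v ≤ 1 / 4) ∧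
  ∀ v ∈ closedBall 0 3, F (τ v) = F v

/-- `F` is the identity at the fixed points of `τ`, and for a dense set of points `y` of the unit
ball every `τ`-invariant continuum in the fibre of `F` over `y` contains a fixed point. -/
def Good {n : ℕ} (τ F : EuclideanSpace ℝ (Fin n) → EuclideanSpace ℝ (Fin n)) : Prop :=
  (∀ v ∈ closedBall 0 3, τ v = v → F v = v) ∧
  ball 0 1 ⊆ closure {y | y ∈ ball 0 1 ∧ ∀ C, IsCompact C → IsConnected C →
    C ⊆ closedBall 0 3 → (∀ v ∈ C, F v = y) → τ '' C = C → ∃ v ∈ C, τ v = v}

/-- The family is closed under compositions with bi-Lipschitz maps between open sets. -/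
def Stable {n : ℕ} {X : Type} [TopologicalSpace X]
    (A : Set (OpenPartialHomeomorph X (EuclideanSpace ℝ (Fin n)))) : Prop :=
  ∀ φ ∈ A, ∀ e : OpenPartialHomeomorph (EuclideanSpace ℝ (Fin n)) (EuclideanSpace ℝ (Fin n)),
    (∃ L : ℝ, ∀ a ∈ e.source, ∀ b ∈ e.source,
      dist (e a) (e b) ≤ L * dist a b ∧ dist a b ≤ L * dist (e a) (e b)) → φ.trans e ∈ A

/-- Invariant continua in the fibres, and the criterion. -/
theorem result (n : ℕ) (hn : 1 ≤ n) :
    (∀ p : ℕ, p.Prime → ∀ (H : Type) [Group H] [TopologicalSpace H]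
      (T : H → EuclideanSpace ℝ (Fin n) → EuclideanSpace ℝ (Fin n)), LocalAction n H T →
      ∀ g : H, Tendsto (fun j : ℕ => g ^ p ^ j) atTop (𝓝 1) → ∀ F, Invariant (T g) F →
      ∀ y ∈ ball (0 : EuclideanSpace ℝ (Fin n)) 1, ∃ C, IsCompact C ∧ IsConnected C ∧
        C ⊆ closedBall 0 (5 / 4) ∧ (∀ v ∈ C, F v = y) ∧ T g '' C = C) ∧
    ∀ (X : Type) [TopologicalSpace X] [T2Space X]
      (A : Set (OpenPartialHomeomorph X (EuclideanSpace ℝ (Fin n)))), Stable A →
      Dense {x | ∃ φ ∈ A, x ∈ φ.source} → IsPreconnected {x | ∃ φ ∈ A, x ∈ φ.source} →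
      ∀ (G : Type) [Group G] [TopologicalSpace G] [IsTopologicalGroup G] [LocallyCompactSpace G]
        [MulAction G X] [ContinuousSMul G X] [FaithfulSMul G X], ∀ V ∈ 𝓝 (1 : G),
      (∀ (p : ℕ) (g : G), p.Prime → Tendsto (fun j : ℕ => g ^ p ^ j) atTop (𝓝 1) →
        IsCompact (closure (Subgroup.zpowers g : Set G)) →
        closure (Subgroup.zpowers g : Set G) ⊆ V → ∀ φ ∈ A, closedBall 0 4 ⊆ φ.target →
        (∀ h ∈ closure (Subgroup.zpowers g : Set G), ∀ v ∈ closedBall 0 4,
          h • φ.symm v ∈ φ.source ∧ dist (φ (h • φ.symm v)) v ≤ 1 / 4) →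
        ∃ F, Invariant (fun v => φ (g • φ.symm v)) F ∧ Good (fun v => φ (g • φ.symm v)) F) →
      ∃ (m : ℕ) (_ : ChartedSpace (EuclideanSpace ℝ (Fin m)) G),
        LieGroup (modelWithCornersSelf ℝ (EuclideanSpace ℝ (Fin m)))
          ((⊤ : ℕ∞) : WithTop ℕ∞) G := by
  refine ⟨?_, ?_⟩
  · intro p hp H _ _ T hT g hg F hF y hy
    exact Pool.Agent.R775.HS.exists_cont hp hn
      (T := T) ⟨hT.1, hT.2.1, hT.2.2.1, hT.2.2.2⟩ g hg F hF.1 hF.2.1 hF.2.2 hy
  · intro X _ _ A hA hd hc G _ _ _ _ _ _ _ V hV h
    refine Pool.Agent.R775.HS.lie_crit hn hA hd hc hV ?_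
    intro hT2 g hgV p hp hgp hcomp φ hφ hs
    rw [Subgroup.topologicalClosure_coe] at hgV hcomp
    obtain ⟨F, ⟨h1, h2, h3⟩, h4, h5⟩ := h p g hp hgp hcomp hgV φ hφ hs.1 (fun k hk v hv =>
      hs.2 k (by rw [Subgroup.topologicalClosure_coe]; exact hk) v hv)
    have hiff : ∀ v ∈ closedBall (0 : EuclideanSpace ℝ (Fin n)) 3,
        φ (g • φ.symm v) = v ↔ g • φ.symm v = φ.symm v := by
      intro v hv
      have hv4 := closedBall_subset_closedBall (by norm_num : (3 : ℝ) ≤ 4) hv
      have hgm : g ∈ ((Subgroup.zpowers g).topologicalClosure : Set G) :=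
        Subgroup.le_topologicalClosure _ (Subgroup.mem_zpowers g)
      constructor
      · intro h
        rw [← φ.left_inv (hs.2 g hgm v hv4).1, h]
      · intro h
        rw [h, φ.right_inv (hs.1 hv4)]
    refine ⟨F, h1, h2, h3, fun v hv hgv => h4 v hv ((hiff v hv).2 hgv), ?_⟩
    intro y hy ε hε
    obtain ⟨y', ⟨hy1, hy2⟩, hyd⟩ := Metric.mem_closure_iff.1 (h5 hy) ε hε
    refine ⟨y', hy1, by rwa [dist_comm], fun C c1 c2 c3 c4 c5 => ?_⟩
    obtain ⟨v, hv, hgv⟩ := hy2 C c1 c2 c3 c4 c5
    exact ⟨v, hv, (hiff v (c3 hv)).1 hgv⟩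

end Pool.Agent.Results.MP_afaf30_gt.InvariantContinua
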