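import Pool.Agent.R775.HS.Fin

/-!
# The Hilbert-Smith conjecture for homeomorphisms which are of Sobolev class somewhere

Let `n ≥ 2`, let `X` be a Hausdorff space (for example an Alexandrov space of dimension `n`) and
let `Ψ i` be countably many topological charts of `X`, homeomorphisms from open sets of `X` onto
open sets of `ℝⁿ`. Nothing is assumed about the changes of coordinates or about the rest of `X`.
Let `G` be a locally compact group acting continuously on `X` and `V` a neighbourhood of `1`.
Consider the elements `g` whose powers have compact closure contained in `V`. Suppose that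

* no such `g` other than `1` fixes all points of a nonempty open subset of a chart, and
* every such `g` is somewhere of Sobolev class `W^{1,q}`, for some `q > n - 1`: there are two of
  the charts and a nonempty open set `W` on which `g`, read in these charts, is of this class. The
  charts, `W`, `q` and the norm depend on `g` in an arbitrary way. Instead, the energies of `g` on
  `W` at a given sequence of scales may be bounded by given numbers.

Then `G` is a Lie group.

Proof (files in `Pool/Agent/R775/HS/`). Baire's theorem on a compact totally disconnected subgroup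
gives a coset `s K` of an open subgroup whose elements have uniformly bounded energies from a ball
of one chart to another chart `χ`. The inverse of `s` need not be regular. In the topological
chart `χ ∘ s` the average `F` of `K` is close to the identity, and it is of the same class in the
coordinates of the first chart. Hence almost every fibre of `F` is totally disconnected. Every
fibre of an invariant map close to the identity contains an invariant continuum (a compact set no
component of which is invariant has a cyclic partition, which is impossible for the degree), so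
almost every fibre contains a fixed point, and `K` acts trivially on a ball.
-/

set_option autoImplicit false

namespace Pool.Agent.Results.MP_afaf30_gt.SomewhereSobolev

open MeasureTheory Set Metric Filter Topology
open scoped ENNReal

/-- The map `f` is of Sobolev class `W^{1,q}` on `O`, in the form of Hajlasz. -/
def Sobolev {n : ℕ} (q : ℝ) (O : Set (EuclideanSpace ℝ (Fin n)))
    (f : EuclideanSpace ℝ (Fin n) → EuclideanSpace ℝ (Fin n)) : Prop :=
  ∃ h : EuclideanSpace ℝ (Fin n) → ℝ≥0∞, Measurable h ∧
    (∀ v ∈ O, ∀ w ∈ O, edist (f v) (f w) ≤ edist v w * (h v + h w)) ∧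
    ∫⁻ v in O, h v ^ q < ∞

/-- The energy of `f` on `O` at the scale `r` is at most `b`: the sum of `|f(x_a) - f(y_a)|^n` over
an `r`-separated set of points `a` of `O` is at most `b`, for all points `x_a`, `y_a` of `O` at
distance at most `r` from `a`. -/
def Energy {n : ℕ} (O : Set (EuclideanSpace ℝ (Fin n))) (r b : ℝ)
    (f : EuclideanSpace ℝ (Fin n) → EuclideanSpace ℝ (Fin n)) : Prop :=
  ∀ (A : Finset (EuclideanSpace ℝ (Fin n)))
    (x y : EuclideanSpace ℝ (Fin n) → EuclideanSpace ℝ (Fin n)),
    (∀ a ∈ A, a ∈ O ∧ x a ∈ O ∧ y a ∈ O ∧ dist (x a) a ≤ r ∧ dist (y a) a ≤ r) →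
    (∀ a ∈ A, ∀ a' ∈ A, a ≠ a' → r ≤ dist a a') → ∑ a ∈ A, dist (f (x a)) (f (y a)) ^ n ≤ b

/-- The powers of `g` have compact closure contained in `V`. -/
def SmallPowers {G : Type} [Group G] [TopologicalSpace G] (V : Set G) (g : G) : Prop :=
  IsCompact (closure (Subgroup.zpowers g : Set G)) ∧ closure (Subgroup.zpowers g : Set G) ⊆ V

/-- The Hilbert-Smith conjecture for locally effective actions by homeomorphisms which are
somewhere of class `W^{1,q}`, `q > n - 1`. -/
theorem result :
    ∀ (n : ℕ), 2 ≤ n → ∀ (X : Type) [TopologicalSpace X] [T2Space X]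
      (Ψ : ℕ → OpenPartialHomeomorph X (EuclideanSpace ℝ (Fin n)))
      (G : Type) [Group G] [TopologicalSpace G] [IsTopologicalGroup G] [LocallyCompactSpace G]
      [T2Space G] [MulAction G X] [ContinuousSMul G X], ∀ V ∈ 𝓝 (1 : G),
      (∀ g : G, SmallPowers V g → ∀ (i : ℕ) (W : Set X), IsOpen W → W.Nonempty →
        W ⊆ (Ψ i).source → (∀ x ∈ W, g • x = x) → g = 1) →
      ∀ r b : ℕ → ℝ, (∀ k, 0 < r k) → Tendsto (fun k => r k * b k) atTop (𝓝 0) →
      (∀ g : G, SmallPowers V g → ∃ (i j : ℕ) (W : Set X), IsOpen W ∧ W.Nonempty ∧
        W ⊆ (Ψ i).source ∧ (∀ x ∈ W, g • x ∈ (Ψ j).source) ∧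
        ((∃ q : ℝ, (n : ℝ) - 1 < q ∧
            Sobolev q (Ψ i '' W) (fun v => Ψ j (g • (Ψ i).symm v))) ∨
          ∃ m : ℕ, ∀ k, m ≤ k →
            Energy (Ψ i '' W) (r k) (b k) (fun v => Ψ j (g • (Ψ i).symm v)))) →
      ∃ (m : ℕ) (_ : ChartedSpace (EuclideanSpace ℝ (Fin m)) G),
        LieGroup (modelWithCornersSelf ℝ (EuclideanSpace ℝ (Fin m)))
          ((⊤ : ℕ∞) : WithTop ℕ∞) G := by
  intro n hn X _ _ Ψ G _ _ _ _ _ _ _ V hV hLE r b hr hrb hreg
  exact Pool.Agent.R775.HS.lie_somewhere hn Ψ hV hLE hr hrb hreg

end Pool.Agent.Results.MP_afaf30_gt.SomewhereSobolev
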